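import Mathlib
import Pool.Agent.X203.NHE

/-!
# Copies of `ω₁` and of the long ray in non-Hausdorff sets (Q1 and Q2, proved)

There is a connected, homogeneous, non-Hausdorff surface `M` such that for every point `z` of `M`
the set `NH(z)` contains a copy of the long ray and a copy of `ω₁`.
-/

namespace Pool.Agent.Results.MP_96a9b8_gt.NonseparatedRay

open Topology Set

/-- An `n`-manifold: a connected space in which every point has an open neighbourhood homeomorphic
to `ℝⁿ` (the Hausdorff axiom is not assumed). -/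
def IsManifoldDim (n : ℕ) (M : Type) [TopologicalSpace M] : Prop :=
  ConnectedSpace M ∧
    ∀ x : M, ∃ U : Set M, IsOpen U ∧ x ∈ U ∧ Nonempty (U ≃ₜ EuclideanSpace ℝ (Fin n))

/-- Homogeneous: every point can be taken to every other point by a homeomorphism. -/
def IsHomogeneous (M : Type) [TopologicalSpace M] : Prop := ∀ x y : M, ∃ h : M ≃ₜ M, h x = y

/-- `NH(z)`: the points `y ≠ z` which cannot be separated from `z` by open sets. -/
def NH {M : Type} [TopologicalSpace M] (z : M) : Set M :=
  {y | y ≠ z ∧ ∀ U V : Set M, IsOpen U → IsOpen V → y ∈ U → z ∈ V → (U ∩ V).Nonempty}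

/-- The first uncountable ordinal `ω₁`, as a linearly ordered type. -/
def Omega1 : Type := (Ordinal.omega.{0} 1).ToType

noncomputable instance : LinearOrder Omega1 :=
  (inferInstance : LinearOrder (Ordinal.omega.{0} 1).ToType)

/-- `ω₁` carries its order topology. -/
noncomputable instance : TopologicalSpace Omega1 := Preorder.topology Omega1

/-- The long ray `ω₁ × [0,1)` with the lexicographic order. -/
def LongRay : Type := Omega1 ×ₗ Ico (0 : ℝ) 1

noncomputable instance : LinearOrder LongRay :=
  (inferInstance : LinearOrder (Omega1 ×ₗ Ico (0 : ℝ) 1))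

/-- The long ray carries its order topology. -/
noncomputable instance : TopologicalSpace LongRay := Preorder.topology LongRay

/-- A copy of `X` in the subset `S` of `M`: a topological embedding of `X` in the subspace `S`. -/
def HasCopy (X : Type) [TopologicalSpace X] {M : Type} [TopologicalSpace M] (S : Set M) : Prop :=
  ∃ e : X → S, IsEmbedding e

theorem countable_Iio (a : Omega1) : (Iio a).Countable := by
  have key : ∀ o : Ordinal.{0}, o = (Cardinal.aleph 1).ord → ∀ a : o.ToType,
      (Iio a).Countable := by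
    rintro o rfl a
    rw [← Cardinal.le_aleph0_iff_set_countable, ← Cardinal.lt_aleph_one_iff]
    exact Cardinal.mk_Iio_toType_ord_lt a
  exact key _ (by rw [Cardinal.ord_aleph]) a

theorem exists_gt' (a : Omega1) : ∃ b : Omega1, a < b := by
  have key : ∀ o : Ordinal.{0}, o = (Cardinal.aleph 1).ord → ∀ a : o.ToType,
      ∃ b : o.ToType, a < b := by
    rintro o rfl a
    have : NoMaxOrder (Cardinal.aleph 1).ord.ToType :=
      Cardinal.noMaxOrder (Cardinal.aleph0_le_aleph 1)
    exact exists_gt a
  exact key _ (by rw [Cardinal.ord_aleph]) a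

instance : WellFoundedLT Omega1 := (inferInstance : WellFoundedLT (Ordinal.omega.{0} 1).ToType)

instance : OrderTopology Omega1 := ⟨rfl⟩

/-- There is a connected homogeneous non-Hausdorff `2`-manifold `M` such that for every `z ∈ M` the
set `NH(z)` contains a copy of the long ray and a copy of `ω₁`. -/
theorem result : ∃ (M : Type) (_ : TopologicalSpace M),
    IsManifoldDim 2 M ∧ IsHomogeneous M ∧ ¬ T2Space M ∧
      ∀ z : M, HasCopy LongRay (NH z) ∧ HasCopy Omega1 (NH z) := by
  have hne : Nonempty Omega1 := by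
    have : (Ordinal.omega.{0} 1) ≠ 0 := (Ordinal.omega_pos 1).ne'
    exact Ordinal.nonempty_toType_iff.mpr this
  obtain ⟨o, -, ho⟩ := (wellFounded_lt (α := Omega1)).has_min univ univ_nonempty
  obtain ⟨M, tM, h1, h2, h3, h4⟩ := Pool.Agent.X203.NHM.main (Ω := Omega1) countable_Iio
    exists_gt' o (fun a => not_lt.mp (ho a (mem_univ a)))
  have hL : ∀ z : M, HasCopy LongRay (NH z) := fun z => h4 z
  have hO : ∀ z : M, HasCopy Omega1 (NH z) := by
    intro z
    obtain ⟨e, he⟩ := h4 z
    exact ⟨_, he.comp (Pool.Agent.X203.NHM.omg_emb (Ω := Omega1) exists_gt')⟩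
  refine ⟨M, tM, ⟨h1, h2⟩, h3, ?_, fun z => ⟨hL z, hO z⟩⟩
  intro hT2
  obtain ⟨z⟩ : Nonempty M := inferInstance
  obtain ⟨e, -⟩ := hO z
  obtain ⟨y, hy1, hy2⟩ := e o
  obtain ⟨U, V, hU, hV, hyU, hzV, hdisj⟩ := t2_separation hy1
  obtain ⟨w, hw1, hw2⟩ := hy2 U V hU hV hyU hzV
  exact hdisj.le_bot ⟨hw1, hw2⟩

end Pool.Agent.Results.MP_96a9b8_gt.NonseparatedRay
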